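import Pool.Agent.Helper46_PSO.Ord

/-!
Under PFA, every family of nowhere dense P-sets which covers `ω*` is very redundant.  Let the family
cover a closed set `W` and let `S` be a subset of `W`.  Then either `S` has empty interior and is
covered by at most `ℵ₂` members, or some infinite subset `E` of `S` lies in a member, every finite
subset of `E` lies in at least `ℵ₃` members and, if the continuum is at most `ℵ₂`, `E` itself lies
in at least `ℵ₃` members.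
-/

set_option autoImplicit false

open Set Cardinal Pool.Agent.Helper9_PSet

theorem Pool.Agent.Results.MP_ae0e3f_lc.CoverOrder.result (hPFA : PFA)
    (𝓕 : Set (Set OmegaStar)) (hP : ∀ F ∈ 𝓕, IsPSet F ∧ IsNowhereDense F)
    (W : Set OmegaStar) (hW : IsClosed W) (hcov : W ⊆ ⋃₀ 𝓕) (S : Set OmegaStar) (hS : S ⊆ W) :
    (interior S = ∅ ∧ ∃ 𝓖 : Set (Set OmegaStar), 𝓖 ⊆ 𝓕 ∧ #𝓖 ≤ aleph 2 ∧ S ⊆ ⋃₀ 𝓖) ∨
      ∃ E : Set OmegaStar, E ⊆ S ∧ E.Infinite ∧ (∃ F ∈ 𝓕, E ⊆ F) ∧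
        (∀ e : Finset OmegaStar, (e : Set OmegaStar) ⊆ E →
          aleph 3 ≤ #{G : Set OmegaStar | G ∈ 𝓕 ∧ (e : Set OmegaStar) ⊆ G}) ∧
        (continuum.{0} ≤ aleph 2 → aleph 3 ≤ #{G : Set OmegaStar | G ∈ 𝓕 ∧ E ⊆ G}) :=
  Pool.Agent.Helper46_PSO.order hPFA 𝓕 (fun F hF => (hP F hF).1) (fun F hF => (hP F hF).2) W hW
    hcov S hS
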