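import Pool.Agent.Helper9_PSet.OK

/-!
Under PFA, every `ω₁`-OK point of `ω*` lies in a nowhere dense P-set.
-/

set_option autoImplicit false

open Set Cardinal Pool.Agent.Helper9_PSet

theorem Pool.Agent.Results.MP_ae0e3f_lc.OKPoints.result (hPFA : PFA) (ι : Type)
    (hι : #ι = aleph 1) (x : OmegaStar) (hx : IsOK ι x) :
    ∃ F : Set OmegaStar, IsPSet F ∧ IsNowhereDense F ∧ x ∈ F :=
  ok_covered hPFA hι x hx
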