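import Pool.Agent.Helper9_PSet.Resolve

/-!
Under PFA, for every family `S` of at most `ℵ₁` P-sets of `ω*`, the points which have no clopen
neighbourhood resolving `S` form a nowhere dense P-set (or there are no such points).
-/

set_option autoImplicit false

open Set Cardinal Pool.Agent.Helper9_PSet

theorem Pool.Agent.Results.MP_ae0e3f_lc.ResolvingPoints.result (hPFA : PFA)
    (S : Set (Set OmegaStar)) (hS : #S ≤ aleph 1) (hP : ∀ F ∈ S, IsPSet F) :
    {x : OmegaStar | ¬ ∃ W, IsClopen W ∧ x ∈ W ∧ Resolves S W} = ∅ ∨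
      IsPSet {x : OmegaStar | ¬ ∃ W, IsClopen W ∧ x ∈ W ∧ Resolves S W} ∧
        IsNowhereDense {x : OmegaStar | ¬ ∃ W, IsClopen W ∧ x ∈ W ∧ Resolves S W} := by
  rcases Set.eq_empty_or_nonempty
    {x : OmegaStar | ¬ ∃ W, IsClopen W ∧ x ∈ W ∧ Resolves S W} with h | h
  · exact Or.inl h
  · exact Or.inr (no_resolve hPFA S hS hP h)
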